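import Pool.Agent.TH802.JonesT.Finite

/-!
If Jones's set function `T` is continuous for a Hausdorff continuum `S` and `T(p)` has nonempty
interior for some point `p`, then `S` is not the union of two proper subcontinua.
-/

set_option autoImplicit false
open Set Topology

namespace Pool.Agent.Results.MP_3a3191_gt.ContinuousTIndecomposable

/-- Jones's set function `T`: the points all of whose continuum neighbourhoods meet `A`. -/
def JonesT {S : Type*} [TopologicalSpace S] (A : Set S) : Set S :=
  {p | ∀ W : Set S, IsClosed W → IsConnected W → p ∈ interior W → (W ∩ A).Nonempty}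

/-- The Vietoris topology, generated by the sets `{A | A ⊆ U}` and `{A | A ∩ U ≠ ∅}`, `U` open. -/
def Vietoris (S : Type*) [TopologicalSpace S] : TopologicalSpace (Set S) :=
  TopologicalSpace.generateFrom
    ({𝒰 : Set (Set S) | ∃ U : Set S, IsOpen U ∧ 𝒰 = {A : Set S | A ⊆ U}} ∪
     {𝒰 : Set (Set S) | ∃ U : Set S, IsOpen U ∧ 𝒰 = {A : Set S | (A ∩ U).Nonempty}})

/-- `T` is continuous for `S`: as a self-map of the nonempty closed sets, Vietoris topology. -/
def TContinuous (S : Type*) [TopologicalSpace S] : Prop :=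
  @ContinuousOn (Set S) (Set S) (Vietoris S) (Vietoris S) JonesT {A : Set S | IsClosed A ∧ A.Nonempty}

theorem result (S : Type*) [TopologicalSpace S] [CompactSpace S] [T2Space S] [ConnectedSpace S]
    (hT : TContinuous S) (p : S) (hp : (interior (JonesT ({p} : Set S))).Nonempty) :
    ¬ ∃ H K : Set S, IsClosed H ∧ IsConnected H ∧ H ≠ univ ∧ IsClosed K ∧ IsConnected K ∧
      K ≠ univ ∧ H ∪ K = univ := by
  have hc : Pool.Agent.TH802.JonesT.TC S := Pool.Agent.TH802.JonesT.TC_of_continuousOn hT
  rintro ⟨H, K, hH1, hH2, hH3, hK1, hK2, hK3, hHK⟩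
  obtain ⟨x, hx⟩ := (ne_univ_iff_exists_notMem K).1 hK3
  obtain ⟨y, hy⟩ := (ne_univ_iff_exists_notMem H).1 hH3
  have hTx : Pool.Agent.TH802.JonesT.T ({x} : Set S) = univ :=
    Pool.Agent.TH802.JonesT.indecomposable_of_interior hc hp x
  have hyT : y ∈ Pool.Agent.TH802.JonesT.T ({x} : Set S) := hTx ▸ mem_univ y
  have hyK : y ∈ interior K := by
    rw [mem_interior]
    refine ⟨Hᶜ, ?_, hH1.isOpen_compl, hy⟩
    intro z hz
    have : z ∈ H ∪ K := hHK ▸ mem_univ z
    exact this.resolve_left hz
  obtain ⟨z, hz1, hz2⟩ := hyT K hK1 hK2 hyK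
  rw [mem_singleton_iff] at hz2
  subst hz2
  exact hx hz1

end Pool.Agent.Results.MP_3a3191_gt.ContinuousTIndecomposable
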